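import Pool.Agent.W307.QF.Stm

/-! Project QF: coprime polynomials have no common zeros modulo large primes. -/

set_option autoImplicit false

namespace Pool.Agent.W216.QF

open Polynomial

/-- clearing denominators -/
theorem clear (U : ℚ[X]) : ∃ (U' : ℤ[X]) (b : ℤ), b ≠ 0 ∧
    U'.map (Int.castRingHom ℚ) = C (b : ℚ) * U := by
  obtain ⟨b, hbM, hb⟩ := IsLocalization.integerNormalization_spec (nonZeroDivisors ℤ) U
  refine ⟨IsLocalization.integerNormalization (nonZeroDivisors ℤ) U, b,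
    nonZeroDivisors.ne_zero hbM, ?_⟩
  have h : (algebraMap ℤ ℚ) = Int.castRingHom ℚ := rfl
  rw [← h, hb]
  ext n
  rw [Polynomial.coeff_smul, Polynomial.coeff_C_mul, zsmul_eq_mul]

theorem cop : Pool.Agent.W307.QF.COP := by
  intro P Q ⟨U, V, hUV⟩
  obtain ⟨U', b, hb, hU⟩ := clear U
  obtain ⟨V', c, hc, hV⟩ := clear V
  have h1 : (C c * U' * P + C b * V' * Q : ℤ[X]) = C (b * c) := by
    apply Polynomial.map_injective (Int.castRingHom ℚ) Int.cast_injective
    rw [Polynomial.map_add, Polynomial.map_mul, Polynomial.map_mul, Polynomial.map_mul,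
      Polynomial.map_mul, hU, hV, Polynomial.map_C, Polynomial.map_C, Polynomial.map_C]
    simp only [eq_intCast, Int.cast_mul, C_mul]
    linear_combination (C (b : ℚ) * C (c : ℚ)) * hUV
  refine ⟨(b * c).natAbs, fun p hp hlt x ⟨hx1, hx2⟩ => ?_⟩
  have h2 := congrArg (Polynomial.eval x) h1
  simp only [eval_add, eval_mul, eval_C] at h2
  have h3 : (p : ℤ) ∣ b * c := by
    rw [← h2]
    exact dvd_add (Dvd.dvd.mul_left hx1 _) (Dvd.dvd.mul_left hx2 _)
  have h4 : p ∣ (b * c).natAbs := Int.natCast_dvd.1 h3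
  have h5 := Nat.le_of_dvd (Int.natAbs_pos.2 (mul_ne_zero hb hc)) h4
  omega

end Pool.Agent.W216.QF
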