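import Pool.Agent.W307.QF.Stm
import Pool.Agent.W12.RS.CombK

/-! Project QF: the main average. -/

set_option autoImplicit false

namespace Pool.Agent.W216.QF

open Finset Polynomial Pool.Agent.W262.RK Pool.Agent.W307.RT Pool.Agent.W307.RS
open Pool.Agent.W307.QF

theorem cst_ne {κ : Fin 3 → ℤ} (h : ∀ k, κ k ≠ 0) (v x : Bool × Bool) : cst κ v x ≠ 0 := by
  unfold cst
  split_ifs <;> simp [h, mul_ne_zero]

theorem κK_ne {J : Type} (k : ℕ) (κ : J → Fin 3 → ℤ) (h : ∀ j k, κ j k ≠ 0) (i : IK k J) :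
    κK k κ i ≠ 0 :=
  prod_ne_zero_iff.2 fun _ _ => cst_ne (h _) _ _

theorem LK_self {J : Type} (k : ℕ) (i : IK k J) : LK k i i = false := by
  unfold LK
  rw [decide_eq_false_iff_not, i.2]
  norm_num

theorem hh_nonneg (d : ℕ) : 0 ≤ hh d := by
  unfold hh
  exact prod_nonneg fun p _ => by positivity

theorem GB_mono {g : ℕ → ℝ} {w : ℝ} {κ : ℤ} {z : ℕ} {C C' : ℝ} (h : GB g w κ z C)
    (hC : C ≤ C') : GB g w κ z C' := by
  refine ⟨h.g0, h.g1, ?_, ?_, ?_, ?_⟩
  · intro y hy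
    refine (h.F1 y hy).trans (mul_le_mul_of_nonneg_right hC ?_)
    exact Real.rpow_nonneg (Real.log_natCast_nonneg y) _
  · intro y V hy hV
    refine (h.F2 y V hy hV).trans (mul_le_mul_of_nonneg_right hC ?_)
    exact Real.rpow_nonneg (Real.log_natCast_nonneg V) _
  · intro y Y hy hY
    refine (h.F3 y Y hy hY).trans (mul_le_mul_of_nonneg_right (mul_le_mul_of_nonneg_right hC ?_) ?_)
    · exact (Real.exp_pos _).le
    · positivity
  · intro y R r e hy hR hr hs hp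
    refine (h.E y R r e hy hR hr hs hp).trans
      (mul_le_mul_of_nonneg_right (mul_le_mul_of_nonneg_right hC ?_) (hh_nonneg R))
    exact Real.log_natCast_nonneg r

theorem mae_of (h1 : Pool.Agent.W307.QF.ATG) (h2 : Pool.Agent.W307.QF.GBE)
    (h3 : Pool.Agent.W307.QF.EXPE) : Pool.Agent.W307.QF.MAE := by
  intro J _ _ k κ e c hk hκ he
  have hw0 : (0 : ℝ) < 1 / 4 ^ k := by positivity
  have hw4 : (1 : ℝ) / 4 ^ k ≤ 1 / 4 := by
    rw [div_le_div_iff₀ (by positivity) (by norm_num)]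
    have : (4 : ℝ) ^ 1 ≤ 4 ^ k := pow_le_pow_right₀ (by norm_num) hk
    linarith
  have hG : ∀ i : IK k J, ∃ z0 : ℕ, ∀ z, z0 ≤ z → ∃ C : ℝ, 1 ≤ C ∧
      GB (fun d => gw (1 / 4 ^ k) c d * rr (re (e i.1.1)) d) (1 / 4 ^ k) (κK k κ i) z C :=
    fun i => h2 (1 / 4 ^ k) c (e i.1.1) (κK k κ i) hw0 hw4 (he i.1.1) (κK_ne k κ hκ i)
  choose z0 hz0 using hG
  refine ⟨(2 + ∑ j, ∑ k, (κ j k).natAbs) + ∑ i, z0 i, fun z hz => ?_⟩
  have hzi : ∀ i : IK k J, z0 i ≤ z := by
    intro i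
    have h4 := single_le_sum (f := fun i => z0 i) (fun _ _ => Nat.zero_le _) (mem_univ i)
    omega
  choose C hC1 hC using fun i => hz0 i z (hzi i)
  set CC : ℝ := 1 + ∑ i, C i with hCC
  have hC0 : ∀ i, 0 ≤ C i := fun i => by linarith [hC1 i]
  have hCi : ∀ i, C i ≤ CC := by
    intro i
    have h4 := single_le_sum (f := fun i => C i) (fun i _ => hC0 i) (mem_univ i)
    rw [hCC]; linarith
  have hCC1 : 1 ≤ CC := by
    have h4 : 0 ≤ ∑ i, C i := sum_nonneg fun i _ => hC0 i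
    rw [hCC]; linarith
  obtain ⟨C', hC'⟩ := h1 (IK k J) (fun _ => 1 / 4 ^ k) (LK k) (κK k κ)
    ((Fintype.card J : ℕ) : ℝ) z
    (fun i d => gw (1 / 4 ^ k) c d * rr (re (e i.1.1)) d) CC
    (fun _ => ⟨hw0, by linarith⟩) (LK_self k) (fun U hU => by
      rw [sum_const, nsmul_eq_mul]
      have h5 : ((U.card : ℕ) : ℝ) ≤ ((4 ^ k * Fintype.card J : ℕ) : ℝ) := by
        exact_mod_cast Pool.Agent.W12.RS.combk J k U hU
      push_cast at h5
      rw [mul_one_div, div_le_iff₀ (by positivity)]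
      linarith) (by omega) hCC1 (fun i => by
      unfold gw rr
      rw [Nat.primeFactors_one, prod_empty, prod_empty, mul_one])
    (fun i => GB_mono (hC i) (hCi i))
  refine ⟨C', fun y hy => ?_⟩
  rw [h3 J k κ (fun j => re (e j)) c z y (by omega) hκ (fun j k => by
    have h4 := single_le_sum (f := fun k => (κ j k).natAbs) (fun _ _ => Nat.zero_le _) (mem_univ k)
    have h5 := single_le_sum (f := fun j => ∑ k, (κ j k).natAbs) (fun _ _ => Nat.zero_le _)
      (mem_univ j)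
    omega)]
  refine (le_trans (le_abs_self _) (hC' y hy)).trans (le_of_eq ?_)
  rw [Real.rpow_natCast]

end Pool.Agent.W216.QF
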